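import Pool.Agent.H80.JD.Basic

/-!
# jd_modules LB3: the exponent of theorem B is negative
-/

set_option autoImplicit false

namespace Pool.Agent.H89.JD

open Finset Filter Topology Pool.Agent.H80.JD

theorem lb3 : T_LB3 := by
  intro P c x₀ hP hP1 hc hx hx1
  set a : ℝ := -Real.log 2 / Real.log P with ha
  have hl : Real.log P < 0 := Real.log_neg hP hP1
  have hlog2 : 0 < Real.log 2 := Real.log_pos one_lt_two
  have ha0 : 0 < a := div_pos_of_neg_of_neg (neg_neg_of_pos hlog2) hl
  have hal : a * Real.log P = -Real.log 2 := by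
    rw [ha]
    exact div_mul_cancel₀ _ hl.ne
  set s : ℝ := 4 * P * (-Real.log P) / (a * c) with hs
  have hl' : 0 < -Real.log P := neg_pos.2 hl
  have hs0 : 0 < s := by
    rw [hs]
    positivity
  have hcs : a / 2 * (c * s / P) = 2 * (-Real.log P) := by
    rw [hs]
    field_simp
    ring
  -- the limit
  have hlim : Tendsto (fun e : ℝ => s ^ 2 * (1 - Real.log (s ^ 2)) * e -
      2 * s ^ 2 * (Real.log e * e)) (𝓝[>] 0) (𝓝 0) := by
    have h1 : Tendsto (fun e : ℝ => s ^ 2 * (1 - Real.log (s ^ 2)) * e) (𝓝[>] 0) (𝓝 0) := by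
      have h2 : Tendsto (fun e : ℝ => s ^ 2 * (1 - Real.log (s ^ 2)) * e) (𝓝 0)
          (𝓝 (s ^ 2 * (1 - Real.log (s ^ 2)) * 0)) := tendsto_id.const_mul _
      rw [mul_zero] at h2
      exact h2.mono_left nhdsWithin_le_nhds
    have h2 : Tendsto (fun e : ℝ => Real.log e * e) (𝓝[>] 0) (𝓝 0) := by
      simpa only [Real.rpow_one] using tendsto_log_mul_rpow_nhdsGT_zero zero_lt_one
    have h3 := h2.const_mul (2 * s ^ 2)
    rw [mul_zero] at h3
    have h4 := h1.sub h3
    rw [sub_zero] at h4
    exact h4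
  have hev : ∀ᶠ e : ℝ in 𝓝[>] 0, s ^ 2 * (1 - Real.log (s ^ 2)) * e -
      2 * s ^ 2 * (Real.log e * e) < -Real.log P := hlim.eventually (eventually_lt_nhds hl')
  rw [eventually_nhdsWithin_iff, Metric.eventually_nhds_iff] at hev
  obtain ⟨δ, hδ, hev⟩ := hev
  set e₀ : ℝ := min (min (δ / 2) (a / 2)) (min (Real.sqrt x₀ / s) (P / (2 * (c * s)))) with he₀
  have hsx : 0 < Real.sqrt x₀ := Real.sqrt_pos.2 hx
  have he0 : 0 < e₀ := lt_min (lt_min (by positivity) (by positivity))
    (lt_min (by positivity) (by positivity))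
  have hb1 : e₀ ≤ δ / 2 := (min_le_left _ _).trans (min_le_left _ _)
  have hb2 : e₀ ≤ a / 2 := (min_le_left _ _).trans (min_le_right _ _)
  have hb3 : e₀ ≤ Real.sqrt x₀ / s := (min_le_right _ _).trans (min_le_left _ _)
  have hb4 : e₀ ≤ P / (2 * (c * s)) := (min_le_right _ _).trans (min_le_right _ _)
  refine ⟨s ^ 2, a - e₀, by positivity, by linarith, by linarith, fun α h1 h2 => ?_⟩
  set e : ℝ := a - α with he
  have hep : 0 < e := by rw [he]; linarith
  have hee : e ≤ e₀ := by rw [he]; linarith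
  have hsq : Real.sqrt (s ^ 2 * e ^ 2) = s * e := by
    rw [← mul_pow]
    exact Real.sqrt_sq (by positivity)
  rw [hsq]
  have hse : s * e ≤ Real.sqrt x₀ := by
    have h3 : e * s ≤ Real.sqrt x₀ := (le_div_iff₀ hs0).1 (hee.trans hb3)
    linarith [mul_comm e s]
  have hcse : c * (s * e) ≤ P / 2 := by
    have h3 : e * (2 * (c * s)) ≤ P := (le_div_iff₀ (by positivity)).1 (hee.trans hb4)
    have h4 : e * (2 * (c * s)) = 2 * (c * (s * e)) := by ring
    linarith
  have hpos : 0 < P - c * (s * e) := by linarith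
  refine ⟨?_, hpos, ?_⟩
  · rw [← mul_pow]
    calc (s * e) ^ 2 ≤ (Real.sqrt x₀) ^ 2 := by gcongr
      _ = x₀ := Real.sq_sqrt hx.le
  · have hα : a / 2 ≤ α := by linarith
    have hα0 : 0 < α := by linarith
    have h3 : Real.log (P - c * (s * e)) ≤ Real.log P - c * (s * e) / P := by
      have h4 : P - c * (s * e) = P * (1 - c * (s * e) / P) := by
        field_simp
      have h5 : 0 < 1 - c * (s * e) / P := by
        rw [h4] at hpos
        exact pos_of_mul_pos_right hpos hP.le
      rw [h4, Real.log_mul hP.ne' h5.ne']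
      have h6 := Real.log_le_sub_one_of_pos h5
      linarith
    have h4 : α * Real.log (P - c * (s * e)) ≤ α * (Real.log P - c * (s * e) / P) :=
      mul_le_mul_of_nonneg_left h3 hα0.le
    have h5 : 2 * (-Real.log P) * e ≤ α * (c * (s * e) / P) := by
      rw [← hcs]
      have h6 : α * (c * (s * e) / P) = α * (c * s / P) * e := by ring
      rw [h6]
      gcongr
    have h7 : Real.log (Real.exp 1 / (s ^ 2 * e ^ 2)) = 1 - Real.log (s ^ 2) - 2 * Real.log e := by
      rw [Real.log_div (Real.exp_ne_zero 1) (by positivity), Real.log_exp,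
        Real.log_mul (by positivity) (by positivity), Real.log_pow e]
      push_cast
      ring
    rw [h7]
    have h8 := hev (y := e) (by
      rw [Real.dist_eq, sub_zero, abs_of_pos hep]
      linarith) hep
    have h9 : α * Real.log P = -Real.log 2 - e * Real.log P := by
      rw [← hal, he]
      ring
    have h10 : s ^ 2 * e ^ 2 * (1 - Real.log (s ^ 2) - 2 * Real.log e) =
        e * (s ^ 2 * (1 - Real.log (s ^ 2)) * e - 2 * s ^ 2 * (Real.log e * e)) := by ring
    rw [h10]
    have h11 := mul_lt_mul_of_pos_left h8 hep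
    have h12 : α * (Real.log P - c * (s * e) / P) =
        α * Real.log P - α * (c * (s * e) / P) := by ring
    rw [h12, h9] at h4
    linarith

end Pool.Agent.H89.JD
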